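import Pool.Agent.Run7.h102.LS.Stm

/-!
# Multilinearity of `Mv` (piece PML)
-/

set_option autoImplicit false

namespace Run7.h921.LS

open Run7.h102.LS Finset

section Mv
variable {A : Type} [CommRing A]

theorem Mv_nil (n : ℕ) (c : List ℕ → A) : Mv n [] c = if n = 0 then c [] else 0 := by
  rw [Mv]

theorem Mv_cons (n : ℕ) (a : A) (l : List A) (c : List ℕ → A) :
    Mv n (a :: l) c = ∑ k ∈ range (n + 1), a ^ k * Mv (n - k) l (fun w => c (k :: w)) := by
  rw [Mv]

theorem Mv_congr (l : List A) : ∀ (n : ℕ) (c d : List ℕ → A),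
    (∀ w, w.length = l.length → c w = d w) → Mv n l c = Mv n l d := by
  induction l with
  | nil =>
    intro n c d h
    rw [Mv_nil, Mv_nil, h [] rfl]
  | cons a l ih =>
    intro n c d h
    rw [Mv_cons, Mv_cons]
    refine sum_congr rfl fun k _ => ?_
    rw [ih (n - k) _ _ fun w hw => h (k :: w) (by simp [hw])]

theorem Mv_add (l : List A) : ∀ (n : ℕ) (c d : List ℕ → A),
    Mv n l (fun w => c w + d w) = Mv n l c + Mv n l d := by
  induction l with
  | nil =>
    intro n c d
    rw [Mv_nil, Mv_nil, Mv_nil]
    split_ifs <;> simp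
  | cons a l ih =>
    intro n c d
    rw [Mv_cons, Mv_cons, Mv_cons, ← sum_add_distrib]
    refine sum_congr rfl fun k _ => ?_
    rw [ih, mul_add]

theorem Mv_mul (x : A) (l : List A) : ∀ (n : ℕ) (c : List ℕ → A),
    Mv n l (fun w => x * c w) = x * Mv n l c := by
  induction l with
  | nil =>
    intro n c
    rw [Mv_nil, Mv_nil]
    split_ifs <;> simp
  | cons a l ih =>
    intro n c
    rw [Mv_cons, Mv_cons, mul_sum]
    refine sum_congr rfl fun k _ => ?_
    rw [ih]
    ring

theorem Mv_zero (l : List A) (n : ℕ) : Mv n l (fun _ => (0 : A)) = 0 := by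
  have := Mv_mul (0 : A) l n (fun _ => (0 : A))
  simpa using this

theorem Mv_sum {ι : Type} (s : Finset ι) (l : List A) (n : ℕ) (c : ι → List ℕ → A) :
    Mv n l (fun w => ∑ i ∈ s, c i w) = ∑ i ∈ s, Mv n l (c i) := by
  classical
  induction s using Finset.induction_on with
  | empty => simpa using Mv_zero l n
  | insert i s hi ih =>
    rw [sum_insert hi, ← ih, ← Mv_add]
    refine Mv_congr l n _ _ fun w _ => ?_
    rw [sum_insert hi]

theorem sh_sum {α ι : Type} (s : Finset ι) (u v : List α) (G : ι → List α → A) :
    sh u v (fun w => ∑ i ∈ s, G i w) = ∑ i ∈ s, sh u v (G i) := by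
  classical
  induction s using Finset.induction_on with
  | empty => simpa using sh_zero u v
  | insert i s hi ih =>
    rw [sum_insert hi, ← ih, ← sh_add]
    refine sh_congr _ u v rfl _ _ fun w _ => ?_
    rw [sum_insert hi]

theorem sh_mul {α : Type} (x : A) (u v : List α) (G : List α → A) :
    sh u v (fun w => x * G w) = x * sh u v G :=
  (sh_hom (AddMonoidHom.mulLeft x) u v G).symm

theorem reidx1 (n : ℕ) (g : ℕ → ℕ → ℕ → A) :
    ∑ i ∈ range (n + 1), ∑ k ∈ range (i + 1), g k (i - k) (n - i) =
      ∑ k ∈ range (n + 1), ∑ j ∈ range (n - k + 1), g k j (n - k - j) := by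
  rw [sum_comm' (s' := fun k => Ico k (n + 1)) (t' := range (n + 1)) (by
    intro i k
    simp only [mem_range, mem_Ico]
    omega)]
  refine sum_congr rfl fun k hk => ?_
  rw [mem_range] at hk
  rw [sum_Ico_eq_sum_range, show n + 1 - k = n - k + 1 by omega]
  refine sum_congr rfl fun j _ => ?_
  rw [Nat.add_sub_cancel_left, Nat.sub_add_eq]

theorem reidx2 (n : ℕ) (g : ℕ → ℕ → ℕ → A) :
    ∑ i ∈ range (n + 1), ∑ l ∈ range (n - i + 1), g i l (n - i - l) =
      ∑ l ∈ range (n + 1), ∑ i ∈ range (n - l + 1), g i l (n - l - i) := by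
  rw [sum_comm' (s' := fun l => range (n - l + 1)) (t' := range (n + 1)) (by
    intro i k
    simp only [mem_range]
    omega)]
  refine sum_congr rfl fun l _ => sum_congr rfl fun i _ => ?_
  rw [Nat.sub_right_comm]

theorem key (N : ℕ) : ∀ (u v : List A), u.length + v.length = N → ∀ (n : ℕ) (c : List ℕ → A),
    sh u v (fun w => Mv n w c) =
      ∑ i ∈ range (n + 1), Mv i u (fun k => Mv (n - i) v (fun k' => sh k k' c)) := by
  have nilL : ∀ (v : List A) (n : ℕ) (c : List ℕ → A), sh [] v (fun w => Mv n w c) =
      ∑ i ∈ range (n + 1), Mv i [] (fun k => Mv (n - i) v (fun k' => sh k k' c)) := by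
    intro v n c
    rw [sh_nil_left, sum_eq_single 0]
    · rw [Mv_nil, if_pos rfl, Nat.sub_zero]
      refine Mv_congr v n _ _ fun w _ => ?_
      rw [sh_nil_left]
    · intro i _ hi
      rw [Mv_nil, if_neg hi]
    · intro h
      exact absurd (mem_range.2 (Nat.succ_pos n)) h
  induction N with
  | zero =>
    intro u v h n c
    have h1 : u = [] := List.length_eq_zero_iff.1 (by omega)
    subst h1
    exact nilL v n c
  | succ N ih =>
    intro u v h n c
    cases u with
    | nil => exact nilL v n c
    | cons a u =>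
      cases v with
      | nil =>
        rw [sh_nil_right, sum_eq_single n]
        · refine Mv_congr _ n _ _ fun w _ => ?_
          rw [Mv_nil, if_pos (Nat.sub_self n), sh_nil_right]
        · intro i hi hin
          rw [mem_range] at hi
          rw [← Mv_zero (a :: u) i]
          refine Mv_congr _ i _ _ fun w _ => ?_
          rw [Mv_nil, if_neg (by omega)]
        · intro h
          exact absurd (mem_range.2 (Nat.lt_succ_self n)) h
      | cons b v =>
        simp only [List.length_cons] at h
        rw [sh_cons]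
        -- left hand side
        have l1 : sh u (b :: v) (fun w => Mv n (a :: w) c) = ∑ k ∈ range (n + 1),
            ∑ j ∈ range (n - k + 1), a ^ k * Mv j u (fun κ =>
              Mv (n - k - j) (b :: v) (fun K' => sh κ K' (fun w => c (k :: w)))) := by
          simp only [Mv_cons n a]
          rw [sh_sum]
          refine sum_congr rfl fun k _ => ?_
          rw [sh_mul, ih u (b :: v) (by simp; omega) (n - k) (fun w => c (k :: w)), mul_sum]
        have l2 : sh (a :: u) v (fun w => Mv n (b :: w) c) = ∑ l ∈ range (n + 1),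
            ∑ i ∈ range (n - l + 1), b ^ l * Mv i (a :: u) (fun K =>
              Mv (n - l - i) v (fun κ' => sh K κ' (fun w => c (l :: w)))) := by
          simp only [Mv_cons n b]
          rw [sh_sum]
          refine sum_congr rfl fun l _ => ?_
          rw [sh_mul, ih (a :: u) v (by simp; omega) (n - l) (fun w => c (l :: w)), mul_sum]
        rw [l1, l2, ← reidx1 n (fun k j m => a ^ k * Mv j u (fun κ =>
              Mv m (b :: v) (fun K' => sh κ K' (fun w => c (k :: w))))),
          ← reidx2 n (fun i l m => b ^ l * Mv i (a :: u) (fun K =>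
              Mv m v (fun κ' => sh K κ' (fun w => c (l :: w))))), ← sum_add_distrib]
        refine sum_congr rfl fun i _ => ?_
        -- the second term
        have r2 : ∑ l ∈ range (n - i + 1), b ^ l * Mv i (a :: u) (fun K =>
              Mv (n - i - l) v (fun κ' => sh K κ' (fun w => c (l :: w)))) =
            ∑ k ∈ range (i + 1), a ^ k * Mv (i - k) u (fun κ => ∑ l ∈ range (n - i + 1),
              b ^ l * Mv (n - i - l) v (fun κ' => sh (k :: κ) κ' (fun w => c (l :: w)))) := by
          have e1 : ∀ l, b ^ l * Mv i (a :: u) (fun K =>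
              Mv (n - i - l) v (fun κ' => sh K κ' (fun w => c (l :: w)))) =
              Mv i (a :: u) (fun K => b ^ l *
                Mv (n - i - l) v (fun κ' => sh K κ' (fun w => c (l :: w)))) := by
            intro l
            rw [Mv_mul]
          rw [sum_congr rfl fun l _ => e1 l, ← Mv_sum, Mv_cons]
        rw [r2, Mv_cons, ← sum_add_distrib]
        refine sum_congr rfl fun k _ => ?_
        rw [← mul_add, ← Mv_add]
        congr 1
        refine Mv_congr u _ _ _ fun κ _ => ?_
        rw [Mv_cons, Mv_cons, ← sum_add_distrib]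
        refine sum_congr rfl fun l _ => ?_
        rw [← mul_add, ← Mv_add]
        congr 1
        refine Mv_congr v _ _ _ fun κ' _ => ?_
        rw [sh_cons]

end Mv

/-- **PML**. -/
theorem t_PML : S_PML := by
  intro A _ n r c H u v hu hv huv
  rw [key _ u v rfl n c]
  refine sum_eq_zero fun i _ => ?_
  rw [← Mv_zero u i]
  refine Mv_congr u i _ _ fun k hk => ?_
  rw [← Mv_zero v (n - i)]
  refine Mv_congr v _ _ _ fun k' hk' => ?_
  apply H
  · intro h
    rw [h] at hk
    exact hu (List.length_eq_zero_iff.1 hk.symm)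
  · intro h
    rw [h] at hk'
    exact hv (List.length_eq_zero_iff.1 hk'.symm)
  · omega

end Run7.h921.LS
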