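import Pool.Agent.Run7.h102.LS.Stm

/-!
# Shuffles of reversed words (piece REV)
-/

set_option autoImplicit false

namespace Run7.h921.LS

open Run7.h102.LS

theorem sh_snoc {α M : Type} [AddCommMonoid M] (a b : α) (n : ℕ) : ∀ (u v : List α),
    u.length + v.length = n → ∀ G : List α → M,
    sh (u ++ [a]) (v ++ [b]) G =
      sh u (v ++ [b]) (fun w => G (w ++ [a])) + sh (u ++ [a]) v (fun w => G (w ++ [b])) := by
  induction n with
  | zero =>
    intro u v h G
    have h1 : u = [] := List.length_eq_zero_iff.1 (by omega)
    have h2 : v = [] := List.length_eq_zero_iff.1 (by omega)
    subst h1 h2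
    simp only [List.nil_append, sh_cons, sh_nil_left, sh_nil_right, List.cons_append]
    rw [add_comm]
  | succ n ih =>
    intro u v h G
    cases u with
    | nil =>
      cases v with
      | nil => simp at h
      | cons e v =>
        simp only [List.length_cons, List.length_nil] at h
        have e1 := ih [] v (by simp; omega) (fun w => G (e :: w))
        simp only [List.nil_append, List.cons_append, sh_cons, sh_nil_left] at e1 ⊢
        rw [e1]
        abel
    | cons c u =>
      cases v with
      | nil =>
        simp only [List.length_cons, List.length_nil] at h
        have e1 := ih u [] (by simp; omega) (fun w => G (c :: w))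
        simp only [List.nil_append, List.cons_append, sh_cons, sh_nil_right] at e1 ⊢
        rw [e1]
        abel
      | cons e v =>
        simp only [List.length_cons] at h
        have e1 := ih u (e :: v) (by simp; omega) (fun w => G (c :: w))
        have e2 := ih (c :: u) v (by simp; omega) (fun w => G (e :: w))
        simp only [List.cons_append] at e1 e2 ⊢
        rw [sh_cons c e (u ++ [a]) (v ++ [b]) G, e1, e2,
          sh_cons c e u (v ++ [b]) (fun w => G (w ++ [a])),
          sh_cons c e (u ++ [a]) v (fun w => G (w ++ [b]))]
        simp only [List.cons_append]
        abel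

/-- **REV**. -/
theorem t_REV : S_REV := by
  intro α M _ u v G
  suffices h : ∀ n, ∀ (u v : List α), u.length + v.length = n → ∀ G : List α → M,
      sh u v (fun w => G w.reverse) = sh u.reverse v.reverse G from h _ u v rfl G
  intro n
  induction n with
  | zero =>
    intro u v h G
    have h1 : u = [] := List.length_eq_zero_iff.1 (by omega)
    subst h1
    rw [sh_nil_left, List.reverse_nil, sh_nil_left]
  | succ n ih =>
    intro u v h G
    cases u with
    | nil => rw [sh_nil_left, List.reverse_nil, sh_nil_left]
    | cons a u =>
      cases v with
      | nil => rw [sh_nil_right, List.reverse_nil, sh_nil_right]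
      | cons b v =>
        simp only [List.length_cons] at h
        have e1 := ih u (b :: v) (by simp; omega) (fun x => G (x ++ [a]))
        have e2 := ih (a :: u) v (by simp; omega) (fun x => G (x ++ [b]))
        rw [sh_cons]
        simp only [List.reverse_cons] at e1 e2 ⊢
        rw [e1, e2, sh_snoc a b _ _ _ rfl]

end Run7.h921.LS
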